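import Mathlib
import Pool.Agent.helper391_DG.Main

set_option autoImplicit false

/-!
# Prime gaps of record length around integers with an exactly prescribed sum of digits

Let `f(x) = log x (log₂ x)² log₄ x / (log₃ x)²` (iterated natural logarithms), the size of the largest gaps
between consecutive primes that are known to occur up to `x`, and let `s(n)` be the sum of the digits of `n`
in base `b`. Fix `b`, `m` and `δ > 0`. For all large `r`, all `A` and all `t` between `δ r` and
`(b - 1 - δ) r` some `n` in `[A b^r, (A + 1) b^r)` has `s(n) = s(A) + t` EXACTLY and no prime within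
`κ f(b^r)`; moreover `n` can be taken in any residue class modulo `m` that is compatible with
`n ≡ s(n) (mod b - 1)`. So with `A = 0` all the sums of digits between `δ r` and `(b - 1 - δ) r` occur for
integers below `b^r` in the middle of prime gaps of record size, including those which only a proportion
`b^(-c r)` of the integers below `b^r` have. (The starting file `DigitalFunctionsInRecordGaps` prescribes
`s(n)` modulo an integer prime to `b - 1`.)

Proof. All the multiples `j (b^k - 1)`, `1 ≤ j ≤ b^k`, have the sum of digits `(b - 1) k`, because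
`j (b^k - 1) = (j - 1) b^k + (b^k - j)`, where the `k` digits of `b^k - j = (b^k - 1) - (j - 1)` are the
complements of the `k` digits of `j - 1`. If `k` is prime, then the primes dividing `b^k - 1` divide `b - 1` or
exceed `k`, so that the modulus `b^k - 1` does not disturb the record sieve. We use the theorem of the
starting files on record gaps around integers of a residue class to a large modulus in an interval
(`MP_3bc45c_nt.RecordGapsAtPrescribedPlaces`), for the progression of the integers
`A b^r + A' b^(2k) + j (b^k - 1)`, with a suitable `A' < b^(r - 2k)`.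
-/

namespace Pool.Agent.Results.MP_69be96_nt.ExactDigitSums

/-- The record scale `f(x) = log x (log₂ x)² log₄ x / (log₃ x)²` (iterated natural logarithms). -/
noncomputable def f (x : ℝ) : ℝ :=
  Real.log x * (Real.log (Real.log x)) ^ 2 * Real.log (Real.log (Real.log (Real.log x))) /
    (Real.log (Real.log (Real.log x))) ^ 2

/-- The sum of the digits of `n` in base `b`. -/
def digitSum (b n : ℕ) : ℕ := (Nat.digits b n).sum

/-- For `b ≥ 2`, `m ≥ 1` and `δ > 0` there are `κ > 0` and `r₀` such that for all `r ≥ r₀`, all `A`, all `t`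
with `δ r ≤ t ≤ (b - 1 - δ) r` and all `a ≡ s(A) + t (mod gcd(m, b - 1))` there is an integer `n` with
`A b^r ≤ n < (A + 1) b^r`, `s(n) = s(A) + t`, `n ≡ a (mod m)` and `|p - n| > κ f(b^r)` for every prime `p`. -/
theorem result (b m : ℕ) (hb : 2 ≤ b) (hm : 1 ≤ m) (δ : ℝ) (hδ : 0 < δ) :
    ∃ κ : ℝ, 0 < κ ∧ ∃ r₀ : ℕ, ∀ r : ℕ, r₀ ≤ r → ∀ A t a : ℕ, δ * r ≤ t →
      (t : ℝ) ≤ ((b : ℝ) - 1 - δ) * r → a ≡ digitSum b A + t [MOD Nat.gcd m (b - 1)] →
      ∃ n : ℕ, A * b ^ r ≤ n ∧ n < (A + 1) * b ^ r ∧ digitSum b n = digitSum b A + t ∧
        n ≡ a [MOD m] ∧ ∀ p : ℕ, p.Prime → κ * f ((b : ℝ) ^ r) < |(p : ℝ) - n| :=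
  Pool.Agent.helper391_DG.main b m hb hm δ hδ

end Pool.Agent.Results.MP_69be96_nt.ExactDigitSums
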