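import Mathlib
import Pool.Agent.Results.MP_3bc45c_nt.RecordGapsAtPrescribedPlaces
import Pool.Agent.helper159_GP.Fin
import Pool.Agent.helper159_GP.FinK

set_option autoImplicit false

/-!
# Record prime gaps around values of linear polynomials in several variables, uniformly in the coefficients

Let `f(x) = log x (log₂ x)² log₄ x / (log₃ x)²` (iterated natural logarithms), the size of the largest gaps between
consecutive primes that are known to occur up to `x`. The starting files contain gaps of this order around integers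
of a given residue class to a large modulus `d` (`MP_3bc45c_nt.RecordGapsAtPrescribedPlaces`: size `c (φ(d)/d) f(x)`, if `d`
has few prime factors beyond a threshold), and around some multiple `α n`, `n ≤ x`, of every integer
`α ≤ exp ((log x)^C)` (`MP_028722_nt.MultiplesOfEveryInteger`, size `c (φ(α)/α) f(x)`): one variable each. Here we treat
linear polynomials `L(k) = n₀ + d_1 k_1 + ⋯ + d_r k_r` in any number of variables, uniformly. Only the greatest common
divisor `g` of the coefficients `d_i` matters.

I. If `∑ |d_i| ≤ exp ((log x)^C)` and every prime factor `p ≤ log x` of `g` divides `n₀` (no condition if `g = 1`), then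
EVERY box `z_i < k_i ≤ z_i + x` contains a `k` such that no prime and no minus prime lies within `κ (φ(g)/g) f(x)` of
`L(k)`. The number of the variables, the signs of the coefficients, `n₀` and the position of the box are arbitrary. So the
values of a linear polynomial with coprime coefficients in every box with the sides `x` meet record gaps of size `f(x)`,
even if the coefficients are as large as `exp ((log x)^C)`.

II. Every generalised arithmetic progression `n₀ + d_1 k_1 + ⋯ + d_r k_r`, `1 ≤ k_i ≤ x^ε`, with `r ≤ x` and differences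
`1 ≤ d_i ≤ x` contains an integer without primes within `κ (φ(g)/g) f(x)`, if `g` has few prime factors `> log log x`;
no condition on `n₀ ≥ 0`.

Proof. Averaging over `s ∈ {1, …, T}^r` gives a combination `D = |s_1 d_1 + ⋯ + s_r d_r| / g ≠ 0` which has few prime
factors: `∑ 1/p ≤ 1/2` over the primes `p > 16` dividing `D` (in II, moreover, `∑ 1/p` is small over those beyond the
threshold of the record sieve); so `φ(g D)/(g D)` is at least a constant times `φ(g)/g`. In II, `g D` is then an
admissible modulus in the first theorem quoted above. In I, there is a point `k⁰` of the box, with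
`k⁰_i ≤ z_i + x^(1/4)`, such that `L(k⁰)` is divisible by all primes `p ≤ (log x) / 40`; and the second theorem quoted above
(its proof in the starting file `Pool/Agent/H361R2/PA/MultA.lean`) can be carried over from `α n` to `α n + γ`, if `γ` is
divisible by all primes `p ≤ (log x) / 10` which divide `α`. It is applied with `α = g D` and `γ = L(k⁰)`.
-/

namespace Pool.Agent.Results.MP_69be96_nt.LinearPolynomialsInEveryBox

open Finset

/-- The record scale `f(x) = log x (log₂ x)² log₄ x / (log₃ x)²` (iterated natural logarithms). -/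
noncomputable def f (x : ℝ) : ℝ :=
  Real.log x * (Real.log (Real.log x)) ^ 2 * Real.log (Real.log (Real.log (Real.log x))) /
    (Real.log (Real.log (Real.log x))) ^ 2

/-- The sum of the reciprocals of the prime factors `p > log log x` of `m` is at most `A / log log x`. -/
def FewPrimes (A x : ℝ) (m : ℕ) : Prop :=
  (∑ p ∈ m.primeFactors with Real.log (Real.log x) < ((p : ℕ) : ℝ), 1 / ((p : ℕ) : ℝ)) ≤
    A / Real.log (Real.log x)

/-- I. For every `C` there are `κ > 0` and `x₀` such that for all `x ≥ x₀`: let `d_1, …, d_r` be integers, not all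
zero, with `∑ |d_i| ≤ exp ((log x)^C)` and greatest common divisor `g`, and let `n₀` be an integer divisible by
every prime factor `p ≤ log x` of `g`; for all integers `z_1, …, z_r` there are integers `z_i < k_i ≤ z_i + x` such that
none of the integers `n₀ + ∑ k_i d_i + j`, `|j| ≤ κ (φ(g)/g) f(x)`, is a prime or minus a prime. II. For `ε > 0` and
`A ≥ 0` there are `κ > 0` and `x₀` such that for all `x ≥ x₀`, all `1 ≤ r ≤ x` and all integers `1 ≤ d_i ≤ x`,
`i = 1, …, r`, whose greatest common divisor `g` satisfies `FewPrimes A x g`: for every integer `n₀ ≥ 0` there are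
integers `1 ≤ k_i ≤ x^ε` such that `|p - n| > κ (φ(g)/g) f(x)` for every prime `p`, where `n = n₀ + ∑ k_i d_i`. -/
theorem result :
    (∀ C : ℕ, ∃ κ : ℝ, 0 < κ ∧ ∃ x₀ : ℝ, ∀ x : ℝ, x₀ ≤ x →
      ∀ (r : ℕ) (d : Fin r → ℤ) (g : ℕ), 1 ≤ g → (g : ℤ) = univ.gcd d →
      ((∑ i, |d i| : ℤ) : ℝ) ≤ Real.exp (Real.log x ^ C) → ∀ n₀ : ℤ,
      (∀ p : ℕ, p.Prime → (p : ℝ) ≤ Real.log x → p ∣ g → (p : ℤ) ∣ n₀) → ∀ z : Fin r → ℤ,
      ∃ k : Fin r → ℤ, (∀ i, z i < k i ∧ (k i : ℝ) ≤ z i + x) ∧
        ∀ j : ℤ, |(j : ℝ)| ≤ κ * ((Nat.totient g : ℝ) / g) * f x →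
          ¬ (n₀ + ∑ i, k i * d i + j).natAbs.Prime) ∧
    (∀ ε A : ℝ, 0 < ε → 0 ≤ A → ∃ κ : ℝ, 0 < κ ∧ ∃ x₀ : ℝ, ∀ x : ℝ, x₀ ≤ x →
      ∀ r : ℕ, 1 ≤ r → (r : ℝ) ≤ x → ∀ d : Fin r → ℕ, (∀ i, 1 ≤ d i ∧ (d i : ℝ) ≤ x) →
      ∀ g : ℕ, g = univ.gcd d → FewPrimes A x g → ∀ n₀ : ℕ,
      ∃ k : Fin r → ℕ, (∀ i, 1 ≤ k i ∧ (k i : ℝ) ≤ x ^ ε) ∧
        ∀ p : ℕ, p.Prime → κ * ((Nat.totient g : ℝ) / g) * f x <
          |(p : ℝ) - ((n₀ + ∑ i, k i * d i : ℕ) : ℝ)|) := by
  have hb : Pool.Agent.helper159_ZK.Base :=
    Pool.Agent.Results.MP_3bc45c_nt.RecordGapsAtPrescribedPlaces.result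
  exact ⟨fun C => Pool.Agent.helper159_GP.finalK C,
    fun ε A hε hA => Pool.Agent.helper159_GP.final hb ε A hε hA⟩

end Pool.Agent.Results.MP_69be96_nt.LinearPolynomialsInEveryBox
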