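import Pool.Agent.H661.RG.Main2

set_option autoImplicit false

/-! # Record prime gaps at the integers `n` with `n α` very close to `β` in the `k`-dimensional torus

Write `f(X) = log X (log₂ X)² log₄ X / (log₃ X)²` for the record scale. Let `k ≥ 1`, `ε > 0`. There is
`κ > 0` such that for every `α ∈ ℝ^k` which is badly approximable up to `ε` (for all `η > 0` there is
`c > 0` with `max_i |n α_i - m_i| ≥ c n ^ (-1/k-η)` for all `n ≥ 1` and all integers `m_i`) and all
large `X`: for all `β ∈ ℝ^k`, every interval `(z, z + 2 X]` with `z ≥ 0` contains an integer `n` with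
`‖n α_i - β_i‖ ≤ X ^ (-1/k+ε)` for all `i` and no prime within `κ f(X)` of `n`. The exponent `1/k` is best
possible up to `ε`.

Proof: Minkowski's second theorem gives a basis of short vectors for the lattice of simultaneous
approximation; averaging over many combinations of these vectors one finds a common denominator
`q ≤ X ^ (1 - 4 δ)`, with `q ≥ X ^ (1-τ)`, `|q α_i - U_i|` small, and with few prime factors
(`∑ 1/p` over the medium and large prime factors `p` is small, `φ(q)/q` is bounded below). The starting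
file `MP_3bc45c_nt.RecordGapsAtPrescribedPlaces` is then applied to the modulus `q` and to a residue class
with a representative `n₀` with `n₀ α` close to `β`. -/

namespace Pool.Agent.Results.MP_69be96_nt.SimultaneousBohrSets

theorem result (k : ℕ) (hk : 1 ≤ k) (ε : ℝ) (hε : 0 < ε) : ∃ κ : ℝ, 0 < κ ∧ ∀ α : Fin k → ℝ,
    (∀ η : ℝ, 0 < η → ∃ c : ℝ, 0 < c ∧ ∀ (n : ℕ) (m : Fin k → ℤ), 1 ≤ n →
      ∃ i, c * (n : ℝ) ^ (-(k : ℝ)⁻¹ - η) ≤ |n * α i - m i|) →
    ∃ X₀ : ℝ, ∀ X : ℝ, X₀ ≤ X → ∀ (β : Fin k → ℝ) (z : ℕ),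
      ∃ (n : ℕ) (m : Fin k → ℤ), z < n ∧ (n : ℝ) ≤ z + 2 * X ∧
        (∀ i, |(n : ℝ) * α i - β i - m i| ≤ X ^ (-(k : ℝ)⁻¹ + ε)) ∧
        ∀ p : ℕ, p.Prime →
          κ * (Real.log X * (Real.log (Real.log X)) ^ 2 * Real.log (Real.log (Real.log (Real.log X))) /
            (Real.log (Real.log (Real.log X))) ^ 2) < |(p : ℝ) - n| :=
  Pool.Agent.H661.RG.main2 k hk ε hε

end Pool.Agent.Results.MP_69be96_nt.SimultaneousBohrSets
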